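import Pool.Agent.Y923.NC.Main

set_option autoImplicit false

namespace Pool.Agent.Results.MP_606be1_nt.ExceptionalDimensionZero

open Real Filter Asymptotics

/-- The pairs of natural numbers `(n, m)` with `|a ^ n - b ^ m| ≤ x`. -/
def pairs (a b x : ℝ) : Set (ℕ × ℕ) := {p | |a ^ p.1 - b ^ p.2| ≤ x}

/-- For every base `a > 1` the asymptotic formula, with error `O(log x)`, holds for all bases `b > 1` outside a
set of Hausdorff dimension zero. -/
theorem result (a : ℝ) (ha : 1 < a) :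
    ∃ E : Set ℝ, dimH E = 0 ∧ ∀ b : ℝ, 1 < b → b ∉ E →
      (∃ C : ℝ, ∀ x : ℝ, 2 ≤ x → (pairs a b x).Finite ∧
        |((pairs a b x).ncard : ℝ) - log x ^ 2 / (log a * log b)| ≤ C * log x) ∧
      (fun x : ℝ => ((pairs a b x).ncard : ℝ)) ~[atTop]
        (fun x : ℝ => log x ^ 2 / (log a * log b)) :=
  Pool.Agent.Y923.NC.main a ha

end Pool.Agent.Results.MP_606be1_nt.ExceptionalDimensionZero
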