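import Pool.Agent.Y923.NC.Gen

set_option autoImplicit false

namespace Pool.Agent.Results.MP_606be1_nt.IndependentBasesInfinite

/-- For every base `b > 1` there is a dense `G_δ` set of bases `a > 1`, all transcendental over `ℚ[b]` (so that
`a` and `b` are multiplicatively independent), for which infinitely many pairs `(n, m)` satisfy
`|a ^ n - b ^ m| ≤ x`, for every `x > 0`. -/
theorem result (b : ℝ) (hb : 1 < b) :
    ∃ G : Set ℝ, IsGδ G ∧ G ⊆ Set.Ioi 1 ∧ Set.Ioi 1 ⊆ closure G ∧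
      ∀ a ∈ G, Transcendental (Algebra.adjoin ℚ {b}) a ∧
        (∀ n m : ℤ, a ^ n = b ^ m → n = 0 ∧ m = 0) ∧
        ∀ x : ℝ, 0 < x → {p : ℕ × ℕ | |a ^ p.1 - b ^ p.2| ≤ x}.Infinite :=
  Pool.Agent.Y923.NC.generic b hb

end Pool.Agent.Results.MP_606be1_nt.IndependentBasesInfinite
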